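import Mathlib

/-!
# A bounded torsion group that is not an image of an ultraproduct

Let `H` be the restricted direct sum of countably many copies of the symmetric group `S_3`; its
exponent is `6`. If a nonprincipal ultraproduct over `ℕ` maps onto `H`, take elements `t_n`, `c_n` of
the ultraproduct that are mapped to a transposition, respectively a 3-cycle, in the `n`-th copy of
`S_3`. In the ultraproduct there are `x_n` with
`x_n = x_{n+1}² t_n x_{n+1}⁻¹ t_n⁻¹ c_n` for all `n`. The image of `x_0` is not trivial in any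
coordinate, as `x² t x⁻¹ t⁻¹ c ≠ 1` for all `x` in `S_3`: a contradiction.
-/

set_option autoImplicit false

namespace Pool.Agent.Results.MP_d8de41_al.DirectSumOfSymmetric

universe u v

/-- The sequences that are equal to the identity on a set of the ultrafilter `U`. -/
def trivialOn (G : ℕ → Type v) [∀ i, Group (G i)] (U : Ultrafilter ℕ) :
    Subgroup (∀ i, G i) where
  carrier := {f | {i | f i = 1} ∈ U}
  one_mem' := Filter.mem_of_superset Filter.univ_mem (fun _ _ => rfl)
  mul_mem' := by
    intro f g hf hg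
    filter_upwards [hf, hg] with i h1 h2
    rw [Pi.mul_apply, h1, h2, one_mul]
  inv_mem' := by
    intro f hf
    filter_upwards [hf] with i h1
    rw [Pi.inv_apply, h1, inv_one]

instance (G : ℕ → Type v) [∀ i, Group (G i)] (U : Ultrafilter ℕ) : (trivialOn G U).Normal where
  conj_mem := by
    intro f hf g
    change {i | (g * f * g⁻¹) i = 1} ∈ U
    filter_upwards [hf] with i h1
    rw [Pi.mul_apply, Pi.mul_apply, Pi.inv_apply, h1, mul_one, mul_inv_cancel]

/-- The ultraproduct of the groups `G i`. -/
abbrev Ultraproduct (G : ℕ → Type v) [∀ i, Group (G i)] (U : Ultrafilter ℕ) : Type v :=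
  (∀ i, G i) ⧸ trivialOn G U

/-- `H` is a homomorphic image of an ultraproduct over a nonprincipal ultrafilter on `ℕ` of groups
(of the universe `v`). -/
def IsUIGroup (H : Type u) [Group H] : Prop :=
  ∃ (G : ℕ → Type v) (_ : ∀ i, Group (G i)) (U : Ultrafilter ℕ),
    (∀ n : ℕ, {n} ∉ U) ∧ ∃ φ : Ultraproduct G U →* H, Function.Surjective φ

/-- Bounded torsion groups. -/
def BoundedTorsion (H : Type u) [Group H] : Prop := ∃ n : ℕ, 0 < n ∧ ∀ h : H, h ^ n = 1

/-- The word `x² t x⁻¹ t⁻¹ c`. -/
def wd {K : Type*} [Group K] (x t c : K) : K := x * x * t * x⁻¹ * t⁻¹ * c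

/-- The symmetric group of degree three. -/
abbrev S3 : Type := Equiv.Perm (Fin 3)

lemma wd_ne (x : S3) : wd x (Equiv.swap 0 1) (finRotate 3) ≠ 1 := by
  revert x
  unfold wd
  decide

lemma wd_one {K : Type*} [Group K] (x : K) : wd x 1 1 = x := by
  unfold wd
  group

/-- The restricted direct sum of countably many copies of `S_3`. -/
def H : Subgroup (ℕ → S3) where
  carrier := {f | (Function.mulSupport f).Finite}
  one_mem' := by
    change (Function.mulSupport (1 : ℕ → S3)).Finite
    rw [Function.mulSupport_one]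
    exact Set.finite_empty
  mul_mem' := by
    intro f g hf hg
    exact (hf.union hg).subset (Function.mulSupport_mul f g)
  inv_mem' := by
    intro f hf
    change (Function.mulSupport f⁻¹).Finite
    rw [Function.mulSupport_inv]
    exact hf

/-- The element of `H` equal to `a` in the coordinate `n`. -/
def single (n : ℕ) (a : S3) : H := ⟨Pi.mulSingle n a, by
  change (Function.mulSupport (Pi.mulSingle n a : ℕ → S3)).Finite
  exact (Set.finite_singleton n).subset Pi.mulSupport_mulSingle_subset⟩

lemma wd_coord (x t c : H) (m : ℕ) :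
    (wd x t c : H).1 m = wd (x.1 m) (t.1 m) (c.1 m) := rfl

section

variable {G : ℕ → Type v} [∀ i, Group (G i)]

/-- The recursion, in the group `G i`. -/
def rec' (t c : ℕ → ∀ i, G i) (i : ℕ) : ℕ → G i
  | 0 => 1
  | k + 1 => wd (rec' t c i k) (t (i - (k + 1)) i) (c (i - (k + 1)) i)

/-- The solutions. -/
def sol (t c : ℕ → ∀ i, G i) (n i : ℕ) : G i := rec' t c i (i - n)

lemma sol_eq (t c : ℕ → ∀ i, G i) {n i : ℕ} (h : n < i) :
    sol t c n i = wd (sol t c (n + 1) i) (t n i) (c n i) := by
  unfold sol
  obtain ⟨k, rfl⟩ : ∃ k, i = n + k + 1 := ⟨i - n - 1, by omega⟩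
  rw [show n + k + 1 - n = k + 1 by omega, show n + k + 1 - (n + 1) = k by omega]
  rw [rec', show n + k + 1 - (k + 1) = n by omega]

end

lemma not_ui : ¬ IsUIGroup.{0, v} H := by
  rintro ⟨G, _, U, hU, φ, hφ⟩
  have hlift : ∀ h : H, ∃ f : ∀ i, G i, φ (QuotientGroup.mk f) = h := by
    intro h
    obtain ⟨q, hq⟩ := hφ h
    obtain ⟨f, rfl⟩ := QuotientGroup.mk_surjective q
    exact ⟨f, hq⟩
  choose t ht using fun n : ℕ => hlift (single n (Equiv.swap 0 1))
  choose c hc using fun n : ℕ => hlift (single n (finRotate 3))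
  have hev : ∀ n : ℕ, {i | n < i} ∈ U := by
    intro n
    have h1 : ({i | n < i} : Set ℕ)ᶜ ∉ U := by
      intro h2
      have h3 : ({i | n < i} : Set ℕ)ᶜ = ⋃ k ∈ Set.Iic n, {k} := by
        ext i
        simp
      rw [h3, Ultrafilter.finite_biUnion_mem_iff (Set.finite_Iic n)] at h2
      obtain ⟨k, -, hk⟩ := h2
      exact hU k hk
    rwa [Ultrafilter.compl_notMem_iff] at h1
  let y : ℕ → H := fun n => φ (QuotientGroup.mk (sol t c n))
  have hy : ∀ n, y n = wd (y (n + 1)) (single n (Equiv.swap 0 1)) (single n (finRotate 3)) := by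
    intro n
    have h1 : (QuotientGroup.mk (sol t c n) : Ultraproduct G U) =
        QuotientGroup.mk (wd (sol t c (n + 1)) (t n) (c n)) := by
      rw [QuotientGroup.eq]
      change {i | ((sol t c n)⁻¹ * wd (sol t c (n + 1)) (t n) (c n)) i = 1} ∈ U
      filter_upwards [hev n] with i hi
      rw [Pi.mul_apply, Pi.inv_apply, inv_mul_eq_one, sol_eq t c hi]
      rfl
    change φ _ = _
    rw [h1, ← ht n, ← hc n]
    change _ = wd (φ (QuotientGroup.mk (sol t c (n + 1)))) _ _
    unfold wd
    simp only [← map_mul, ← map_inv, ← QuotientGroup.mk_mul, ← QuotientGroup.mk_inv]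
  have hcoord : ∀ m n : ℕ, n ≤ m → (y 0).1 m = (y n).1 m := by
    intro m n hn
    induction n with
    | zero => rfl
    | succ n ih =>
      rw [ih (by omega), hy n, wd_coord]
      have e1 : (single n (Equiv.swap 0 1)).1 m = 1 := Pi.mulSingle_eq_of_ne (by omega) _
      have e2 : (single n (finRotate 3)).1 m = 1 := Pi.mulSingle_eq_of_ne (by omega) _
      rw [e1, e2, wd_one]
  have hne : ∀ m : ℕ, (y 0).1 m ≠ 1 := by
    intro m
    rw [hcoord m m le_rfl, hy m, wd_coord]
    have e1 : (single m (Equiv.swap 0 1)).1 m = Equiv.swap 0 1 := Pi.mulSingle_eq_same _ _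
    have e2 : (single m (finRotate 3)).1 m = finRotate 3 := Pi.mulSingle_eq_same _ _
    rw [e1, e2]
    exact wd_ne _
  have hfin : (Function.mulSupport (y 0).1).Finite := (y 0).2
  have huniv : Function.mulSupport (y 0).1 = Set.univ := by
    ext m
    simp [hne m]
  rw [huniv] at hfin
  exact Set.infinite_univ hfin

lemma bounded : BoundedTorsion H := by
  refine ⟨6, by norm_num, fun h => ?_⟩
  apply Subtype.ext
  funext m
  change (h.1 m) ^ 6 = 1
  have : ∀ x : S3, x ^ 6 = 1 := by
    intro x
    have h1 : Fintype.card S3 = 6 := by decide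
    rw [← h1]
    exact pow_card_eq_one
  exact this _

/-- Main result: the restricted direct sum of countably many copies of the symmetric group `S_3` is
a bounded torsion group that is not a homomorphic image of an ultraproduct over a nonprincipal
ultrafilter on `ℕ`, of groups of any universe. -/
theorem result : BoundedTorsion H ∧ ¬ IsUIGroup.{0, v} H := ⟨bounded, not_ui⟩

end Pool.Agent.Results.MP_d8de41_al.DirectSumOfSymmetric
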